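import Pool.Agent.Helper52.D9Full

/-!
# MP_d9f794_an: a map of `c_0` without fixed points with a compact set attracting all compact sets

`C₀(ℕ, 𝕜)` is Mathlib's space of the functions `ℕ → 𝕜` (`ℕ` discrete) vanishing at infinity with
the supremum norm, that is, the Banach space `c_0` over `𝕜`; `𝕜` is `ℝ` or `ℂ`.
-/

open scoped ZeroAtInfty

namespace Pool.Agent.Results.MP_d9f794_an.Full

theorem result (𝕜 : Type) [RCLike 𝕜] :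
    ∃ (f : C₀(ℕ, 𝕜) → C₀(ℕ, 𝕜)) (A : Set C₀(ℕ, 𝕜)), Continuous f ∧ IsCompact A ∧ A.Nonempty ∧
      (∀ K : Set C₀(ℕ, 𝕜), IsCompact K → ∀ U : Set C₀(ℕ, 𝕜), (∃ O, IsOpen O ∧ A ⊆ O ∧ O ⊆ U) →
        ∃ N : ℕ, ∀ n ≥ N, f^[n] '' K ⊆ U) ∧
      ∀ x, f x ≠ x :=
  Pool.Agent.Helper52.D9.full 𝕜

end Pool.Agent.Results.MP_d9f794_an.Full
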